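import Pool.Agent.Helper45.SE.Graph

set_option autoImplicit false

namespace Pool.Agent.Results.MP_6d4c99_co.EulerGenusThree

/-- A transition system of the multigraph with end map `ends`: at every vertex `v` the map `T v`
pairs the edges incident with `v` (it is an involution without fixed points on these edges). -/
def IsTransition {V E : Type} (ends : E → Sym2 V) (T : V → E → E) : Prop :=
  ∀ v e, v ∈ ends e → v ∈ ends (T v e) ∧ T v e ≠ e ∧ T v (T v e) = e

/-- The number of closed trails of a transition system: the number of classes of the equivalence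
relation on the edges generated by the pairs `e`, `T v e` with `v` an end of `e`. -/
noncomputable def numTrails {V E : Type} (ends : E → Sym2 V) (T : V → E → E) : ℕ :=
  Nat.card (Quot (fun e f : E => ∃ v, v ∈ ends e ∧ T v e = f))

/-- Every finite loopless 2-connected multigraph in which all degrees are four and which has two
transition systems, disagreeing at every edge at every vertex, with at least `|V| - 1` closed
trails together (that is, which has a 2-face-colourable embedding in a surface of Euler
characteristic at least `-1`) has two partitions of its edges into cycles such that any cycle from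
the first and any from the second share at most one edge at each vertex. -/
theorem result :
    ∀ (V E : Type) [Fintype V] [DecidableEq V] [Fintype E] [DecidableEq E] (ends : E → Sym2 V),
      (∀ e, ¬ (ends e).IsDiag) →
      3 ≤ Fintype.card V →
      (SimpleGraph.fromRel (fun u v : V => ∃ e, ends e = s(u, v))).Connected →
      (∀ v : V, ((SimpleGraph.fromRel (fun u w : V => ∃ e, ends e = s(u, w))).induce
          {w : V | w ≠ v}).Connected) →
      (∀ v : V, (Finset.univ.filter (fun e : E => v ∈ ends e)).card = 4) →
      (∃ T₁ T₂ : V → E → E, IsTransition ends T₁ ∧ IsTransition ends T₂ ∧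
        (∀ v e, v ∈ ends e → T₁ v e ≠ T₂ v e) ∧
        Fintype.card V ≤ numTrails ends T₁ + numTrails ends T₂ + 1) →
      ∃ C₁ C₂ : Finset (Finset E),
        (∀ S ∈ C₁, S.Nonempty ∧ (∀ v : V, Even (S.filter (fun e => v ∈ ends e)).card) ∧
            ∀ T ⊆ S, T.Nonempty → (∀ v : V, Even (T.filter (fun e => v ∈ ends e)).card) → T = S) ∧
        (∀ e : E, ∃! S, S ∈ C₁ ∧ e ∈ S) ∧
        (∀ S ∈ C₂, S.Nonempty ∧ (∀ v : V, Even (S.filter (fun e => v ∈ ends e)).card) ∧
            ∀ T ⊆ S, T.Nonempty → (∀ v : V, Even (T.filter (fun e => v ∈ ends e)).card) → T = S) ∧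
        (∀ e : E, ∃! S, S ∈ C₂ ∧ e ∈ S) ∧
        (∀ v : V, ∀ S₁ ∈ C₁, ∀ S₂ ∈ C₂,
            ((S₁ ∩ S₂).filter (fun e => v ∈ ends e)).card ≤ 1) := by
  rintro V E _ _ _ _ ends hloop _ hconn hconn' hdeg ⟨T₁, T₂, h₁, h₂, hdis, hn⟩
  exact Pool.Agent.Helper45.SE.low_genus ends hloop hconn hconn' hdeg T₁ T₂ h₁ h₂ hdis hn

end Pool.Agent.Results.MP_6d4c99_co.EulerGenusThree
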