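import Pool.Agent.Helper45.CCD.LineGraph

set_option autoImplicit false

namespace Pool.Agent.Results.MP_6d4c99_co.FourRegularLineGraphs

/-- The multigraph `H` with vertex set `V`, edge set `E` and end map `ends` is the line graph of a
loopless multigraph `G`. The edge set of `G` is `V`, its vertex set is `W`, and `endsG` gives the
two ends of each edge of `G`. Each edge `e` of `H` belongs to a vertex `vtx e` of `G` and joins
edges of `G` incident with `vtx e`; and for each vertex `w` of `G` and each two different edges
`x`, `y` of `G` incident with `w`, exactly one edge of `H` belongs to `w` and joins `x` and `y`. -/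
def IsLineGraph {V E : Type} (ends : E → Sym2 V) : Prop :=
  ∃ (W : Type) (endsG : V → Sym2 W) (vtx : E → W),
    (∀ x : V, ¬ (endsG x).IsDiag) ∧
    (∀ (e : E) (x : V), x ∈ ends e → vtx e ∈ endsG x) ∧
    (∀ (w : W) (x y : V), x ≠ y → w ∈ endsG x → w ∈ endsG y →
      ∃! e : E, vtx e = w ∧ ends e = s(x, y))

/-- Every finite loopless 2-connected multigraph in which all degrees are four and which is the
line graph of a loopless multigraph (for instance of any 2-connected cubic multigraph) has two
partitions of its edges into cycles such that any cycle from the first and any from the second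
share at most one edge at each vertex. -/
theorem result :
    ∀ (V E : Type) [Fintype V] [DecidableEq V] [Fintype E] [DecidableEq E] (ends : E → Sym2 V),
      (∀ e, ¬ (ends e).IsDiag) →
      3 ≤ Fintype.card V →
      (SimpleGraph.fromRel (fun u v : V => ∃ e, ends e = s(u, v))).Connected →
      (∀ v : V, ((SimpleGraph.fromRel (fun u w : V => ∃ e, ends e = s(u, w))).induce
          {w : V | w ≠ v}).Connected) →
      (∀ v : V, (Finset.univ.filter (fun e : E => v ∈ ends e)).card = 4) →
      IsLineGraph ends →
      ∃ C₁ C₂ : Finset (Finset E),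
        (∀ S ∈ C₁, S.Nonempty ∧ (∀ v : V, Even (S.filter (fun e => v ∈ ends e)).card) ∧
            ∀ T ⊆ S, T.Nonempty → (∀ v : V, Even (T.filter (fun e => v ∈ ends e)).card) → T = S) ∧
        (∀ e : E, ∃! S, S ∈ C₁ ∧ e ∈ S) ∧
        (∀ S ∈ C₂, S.Nonempty ∧ (∀ v : V, Even (S.filter (fun e => v ∈ ends e)).card) ∧
            ∀ T ⊆ S, T.Nonempty → (∀ v : V, Even (T.filter (fun e => v ∈ ends e)).card) → T = S) ∧
        (∀ e : E, ∃! S, S ∈ C₂ ∧ e ∈ S) ∧
        (∀ v : V, ∀ S₁ ∈ C₁, ∀ S₂ ∈ C₂,
            ((S₁ ∩ S₂).filter (fun e => v ∈ ends e)).card ≤ 1) := by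
  intro V E _ _ _ _ ends hloop hcard hconn hconn' hdeg ⟨W, endsG, vtx, hG, hE1, hE2⟩
  exact Pool.Agent.Helper45.CCD.lineGraph4 V E ends hloop hcard hconn hconn' hdeg W endsG vtx
    hG hE1 hE2

end Pool.Agent.Results.MP_6d4c99_co.FourRegularLineGraphs
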