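import Pool.Agent.Helper97.CD.Deg

/-!
MP_6d4c99_co: in highly edge-connected graphs with all degrees even, any `n` circuit decompositions have a common
compatible circuit decomposition.
-/

set_option autoImplicit false

namespace Pool.Agent.Results.MP_6d4c99_co.HighlyConnected

open Finset

variable {V E : Type} [Fintype V] [DecidableEq V] [Fintype E] [DecidableEq E]

/-- A circuit: a minimal nonempty set of edges in which every vertex has even degree. -/
def IsCircuit (ends : E → Sym2 V) (S : Finset E) : Prop :=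
  S.Nonempty ∧ (∀ v : V, Even (S.filter (fun e => v ∈ ends e)).card) ∧
    ∀ T ⊆ S, T.Nonempty → (∀ v : V, Even (T.filter (fun e => v ∈ ends e)).card) → T = S

/-- A circuit decomposition: a set of circuits such that every edge is in exactly one of them. -/
def IsCircuitDecomposition (ends : E → Sym2 V) (C : Finset (Finset E)) : Prop :=
  (∀ S ∈ C, IsCircuit ends S) ∧ ∀ e : E, ∃! S, S ∈ C ∧ e ∈ S

/-- Compatible: a circuit of the first and a circuit of the second share at most one edge at each vertex. -/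
def Compatible (ends : E → Sym2 V) (C₁ C₂ : Finset (Finset E)) : Prop :=
  ∀ v : V, ∀ S₁ ∈ C₁, ∀ S₂ ∈ C₂, ((S₁ ∩ S₂).filter (fun e => v ∈ ends e)).card ≤ 1

/-- A transition system: at each vertex `v` the map `T v` pairs up the edges incident with `v`. -/
def IsTransition (ends : E → Sym2 V) (T : V → E → E) : Prop :=
  ∀ v e, v ∈ ends e → v ∈ ends (T v e) ∧ T v e ≠ e ∧ T v (T v e) = e

/-- Every cut has at least `2 m` edges, or there are `m` pairwise disjoint edge sets each of which connects all
vertices. -/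
def HighlyConnected (ends : E → Sym2 V) (m : ℕ) : Prop :=
  (∀ X : Finset V, X.Nonempty → X ≠ univ →
    2 * m ≤ (univ.filter (fun e => (∃ v ∈ X, v ∈ ends e) ∧ ∃ v, v ∉ X ∧ v ∈ ends e)).card) ∨
  ∃ F : Fin m → Finset E, (∀ i j, i ≠ j → Disjoint (F i) (F j)) ∧
    ∀ i, (SimpleGraph.fromRel (fun u v : V => ∃ e ∈ F i, ends e = s(u, v))).Connected

open Pool.Agent.Helper97.CC Pool.Agent.Helper97.CD

section bridge

variable (ends : E → Sym2 V) (s t : E → V) (hst : ∀ e, ends e = s(s e, t e)) (hl : ∀ e, s e ≠ t e)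
include hst

lemma mem_ends (v : V) (e : E) : v ∈ ends e ↔ s e = v ∨ t e = v := by
  rw [hst e, Sym2.mem_iff]
  constructor <;> rintro (h | h)
  · exact Or.inl h.symm
  · exact Or.inr h.symm
  · exact Or.inl h.symm
  · exact Or.inr h.symm

lemma dg_eq (S : Finset E) (v : V) : (S.filter (fun e => v ∈ ends e)).card = dg s t S v := by
  unfold dg
  congr 1
  ext e
  rw [mem_filter, mem_filter, mem_ends ends s t hst]

include hl

lemma circ_iff (S : Finset E) : IsCircuit ends S ↔ Circ (inc s t) S := by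
  have h1 : ∀ T : Finset E, (∀ v : V, Even (T.filter (fun e => v ∈ ends e)).card) ↔ Ev (inc s t) T := by
    intro T
    rw [Pool.Agent.Helper97.CD.ev_iff s t hl]
    simp only [dg_eq ends s t hst]
  unfold IsCircuit Circ
  rw [h1]
  refine and_congr_right fun _ => and_congr_right fun _ => ?_
  apply forall_congr'
  intro T
  rw [h1]

/-- the strength -/
lemma strong [Nonempty V] (m : ℕ) (h : HighlyConnected ends m) :
    St (vr (inc s t)) m ((vr (inc s t)).r univ) univ := by
  classical
  rcases h with h | ⟨F, hF1, hF2⟩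
  · apply st_of_part
    apply part_of_cut
    intro X hX1 hX2
    refine (h X hX1 hX2).trans (le_of_eq ?_)
    congr 1
    ext e
    rw [mem_filter, mem_filter]
    refine and_congr_right fun _ => ?_
    simp only [mem_ends ends s t hst]
    constructor
    · rintro ⟨⟨v, hv, h1⟩, w, hw, h2⟩ h3
      rcases h1 with h1 | h1 <;> rcases h2 with h2 | h2
      · rw [← h1] at hv; rw [← h2] at hw; exact hw hv
      · rw [← h1] at hv; rw [← h2] at hw; exact hw (h3.1 hv)
      · rw [← h1] at hv; rw [← h2] at hw; exact hw (h3.2 hv)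
      · rw [← h1] at hv; rw [← h2] at hw; exact hw hv
    · intro h3
      by_cases h4 : s e ∈ X
      · exact ⟨⟨s e, h4, Or.inl rfl⟩, t e, fun h5 => h3 ⟨fun _ => h5, fun _ => h4⟩, Or.inr rfl⟩
      · by_cases h5 : t e ∈ X
        · exact ⟨⟨t e, h5, Or.inr rfl⟩, s e, h4, Or.inl rfl⟩
        · exact absurd ⟨fun h => absurd h h4, fun h => absurd h h5⟩ h3
  · apply st_of_trees s t m F hF1
    intro i u v
    obtain ⟨w⟩ := (hF2 i).preconnected u v
    induction w with
    | nil =>
      rename_i u
      rw [add_self' (Pi.single u 1 : V → ZMod 2)]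
      exact Submodule.zero_mem _
    | @cons u w v hadj _ ih =>
      have h1 : (Pi.single u 1 + Pi.single w 1 : V → ZMod 2) ∈ sp (inc s t) (F i) := by
        rw [SimpleGraph.fromRel_adj] at hadj
        have h2 : ∃ e ∈ F i, ends e = s(u, w) := by
          rcases hadj.2 with h | ⟨e, he, h⟩
          · exact h
          · exact ⟨e, he, by rw [h]; exact Sym2.eq_swap⟩
        obtain ⟨e, he, h3⟩ := h2
        have h4 := mem_sp (inc s t) he
        have h5 : inc s t e = Pi.single u 1 + Pi.single w 1 := by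
          rw [hst e, Sym2.eq_iff] at h3
          unfold inc
          rcases h3 with ⟨h6, h7⟩ | ⟨h6, h7⟩
          · rw [h6, h7]
          · rw [h6, h7, add_comm]
        rw [← h5]; exact h4
      have h4 : (Pi.single u 1 + Pi.single v 1 : V → ZMod 2)
          = (Pi.single u 1 + Pi.single w 1) + (Pi.single w 1 + Pi.single v 1) := by
        have h5 := add_self' (Pi.single w 1 : V → ZMod 2)
        calc (Pi.single u 1 + Pi.single v 1 : V → ZMod 2)
            = Pi.single u 1 + 0 + Pi.single v 1 := by rw [add_zero]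
          _ = Pi.single u 1 + (Pi.single w 1 + Pi.single w 1) + Pi.single v 1 := by rw [h5]
          _ = _ := by simp only [add_assoc]
      rw [h4]
      exact Submodule.add_mem _ h1 ih

/-- the general form: `n` conflict relations of degree at most 2 -/
theorem general (n : ℕ) (heven : ∀ v : V, Even (univ.filter (fun e : E => v ∈ ends e)).card)
    (hH : HighlyConnected ends ((2 * n + 1) * 6 ^ n)) (k : ℕ) (hk : k ≤ n) (Γ : ℕ → E → E → Prop)
    (hs : ∀ i x y, Γ i x y → Γ i y x)
    (hir : ∀ i x, ¬ Γ i x x) (hd : ∀ i e, ∃ a b, ∀ y, Γ i e y → y = a ∨ y = b) :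
    ∃ D : Finset (Finset E), IsCircuitDecomposition ends D ∧
      ∀ S ∈ D, ∀ e ∈ S, ∀ f ∈ S, ∀ i < k, ¬ Γ i e f := by
  classical
  rcases isEmpty_or_nonempty V with hV | hV
  · have : IsEmpty E := ⟨fun e => isEmptyElim (s e)⟩
    refine ⟨∅, ⟨by simp, fun e => isEmptyElim e⟩, by simp⟩
  have h1 := strong ends s t hst hl _ hH
  have h2 : St (vr (inc s t)) (6 ^ k * (2 * k + 1)) ((vr (inc s t)).r univ) univ := by
    refine h1.mono ?_ (fun F _ => (vr (inc s t)).mono (subset_univ F))
    rw [mul_comm]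
    exact Nat.mul_le_mul (by omega) (Nat.pow_le_pow_right (by norm_num) hk)
  have hx : Ev (inc s t) univ := by
    rw [Pool.Agent.Helper97.CD.ev_iff s t hl]
    intro v
    rw [← dg_eq ends s t hst]
    exact heven v
  obtain ⟨P, hP1, hP2, hP3⟩ := Pool.Agent.Helper97.CD.main (inc s t) hx k Γ hs hir hd h2
  refine ⟨P, ⟨fun S hS => (circ_iff ends s t hst hl S).2 (hP1 S hS), ?_⟩, hP3⟩
  intro e
  obtain ⟨C, hC1, hC2, hC3⟩ := hP2 e
  exact ⟨C, ⟨hC1, hC2⟩, fun C' hC' => hC3 C' hC'.1 hC'.2⟩

/-- circuit decompositions -/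
theorem mates (n : ℕ) (heven : ∀ v : V, Even (univ.filter (fun e : E => v ∈ ends e)).card)
    (hH : HighlyConnected ends ((2 * n + 1) * 6 ^ n)) (k : ℕ) (hk : k ≤ n) (C : Fin k → Finset (Finset E))
    (hC : ∀ i, IsCircuitDecomposition ends (C i)) :
    ∃ D, IsCircuitDecomposition ends D ∧ ∀ i, Compatible ends (C i) D := by
  classical
  set Γ : ℕ → E → E → Prop := fun i e f => e ≠ f ∧ ∃ hi : i < k, ∃ S ∈ C ⟨i, hi⟩, e ∈ S ∧ f ∈ S ∧
    ∃ v, v ∈ ends e ∧ v ∈ ends f with hΓ
  obtain ⟨D, hD1, hD2⟩ := general ends s t hst hl n heven hH k hk Γ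
    (by
      rintro i x y ⟨hne, hi, S, hS, hx, hy, v, h1, h2⟩
      exact ⟨hne.symm, hi, S, hS, hy, hx, v, h2, h1⟩)
    (fun i x h => h.1 rfl)
    (by
      intro i e
      by_cases hi : i < k
      · obtain ⟨S, ⟨hS1, hS2⟩, hS3⟩ := (hC ⟨i, hi⟩).2 e
        have hcirc := (circ_iff ends s t hst hl S).1 ((hC ⟨i, hi⟩).1 S hS1)
        -- at a vertex of `e` there is at most one other edge of the circuit
        have hone : ∀ v, v ∈ ends e → ∃ a, ∀ f ∈ S, v ∈ ends f → f ≠ e → f = a := by
          intro v hv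
          by_cases hex : ∃ a ∈ S, v ∈ ends a ∧ a ≠ e
          · obtain ⟨a, ha, hav, hae⟩ := hex
            refine ⟨a, ?_⟩
            intro f hf hfv hfe
            by_contra hfa
            have h1 := circ_deg s t hl S hcirc v
            rw [← dg_eq ends s t hst] at h1
            have h2 : 2 < (S.filter (fun e => v ∈ ends e)).card := by
              rw [two_lt_card]
              exact ⟨e, mem_filter.2 ⟨hS2, hv⟩, a, mem_filter.2 ⟨ha, hav⟩, f, mem_filter.2 ⟨hf, hfv⟩,
                hae.symm, hfe.symm, fun h => hfa h.symm⟩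
            omega
          · refine ⟨e, ?_⟩
            intro f hf hfv hfe
            exact absurd ⟨f, hf, hfv, hfe⟩ hex
        obtain ⟨a, ha⟩ := hone (s e) ((mem_ends ends s t hst _ _).2 (Or.inl rfl))
        obtain ⟨b, hb⟩ := hone (t e) ((mem_ends ends s t hst _ _).2 (Or.inr rfl))
        refine ⟨a, b, ?_⟩
        rintro y ⟨hne, _, S', hS', he', hy', v, hv1, hv2⟩
        have h1 : S' = S := hS3 S' ⟨hS', he'⟩
        rw [h1] at hy'
        rcases (mem_ends ends s t hst _ _).1 hv1 with h2 | h2
        · rw [← h2] at hv2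
          exact Or.inl (ha y hy' hv2 hne.symm)
        · rw [← h2] at hv2
          exact Or.inr (hb y hy' hv2 hne.symm)
      · refine ⟨e, e, ?_⟩
        rintro y ⟨_, hi', _⟩
        exact absurd hi' hi)
  refine ⟨D, hD1, ?_⟩
  intro i v S₁ hS₁ S₂ hS₂
  by_contra hcon
  push Not at hcon
  obtain ⟨e, he, f, hf, hef⟩ := one_lt_card.1 hcon
  rw [mem_filter, mem_inter] at he hf
  exact hD2 S₂ hS₂ e he.1.2 f hf.1.2 i.val i.isLt
    ⟨hef, i.isLt, S₁, hS₁, he.1.1, hf.1.1, v, he.2, hf.2⟩

/-- transition systems -/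
theorem trans (n : ℕ) (heven : ∀ v : V, Even (univ.filter (fun e : E => v ∈ ends e)).card)
    (hH : HighlyConnected ends ((2 * n + 1) * 6 ^ n)) (T : Fin n → V → E → E)
    (hT : ∀ i, IsTransition ends (T i)) :
    ∃ D, IsCircuitDecomposition ends D ∧ ∀ S ∈ D, ∀ i v, ∀ e ∈ S, v ∈ ends e → T i v e ∉ S := by
  classical
  set Γ : ℕ → E → E → Prop := fun i e f => e ≠ f ∧ ∃ hi : i < n, ∃ v, v ∈ ends e ∧ T ⟨i, hi⟩ v e = f with hΓ
  obtain ⟨D, hD1, hD2⟩ := general ends s t hst hl n heven hH n le_rfl Γ
    (by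
      rintro i x y ⟨hne, hi, v, h1, h2⟩
      obtain ⟨h3, h4, h5⟩ := hT ⟨i, hi⟩ v x h1
      rw [h2] at h3 h5
      exact ⟨hne.symm, hi, v, h3, h5⟩)
    (fun i x h => h.1 rfl)
    (by
      intro i e
      by_cases hi : i < n
      · refine ⟨T ⟨i, hi⟩ (s e) e, T ⟨i, hi⟩ (t e) e, ?_⟩
        rintro y ⟨_, _, v, hv, hy⟩
        rcases (mem_ends ends s t hst _ _).1 hv with h2 | h2
        · rw [h2]; exact Or.inl hy.symm
        · rw [h2]; exact Or.inr hy.symm
      · refine ⟨e, e, ?_⟩
        rintro y ⟨_, hi', _⟩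
        exact absurd hi' hi)
  refine ⟨D, hD1, ?_⟩
  intro S hS i v e he hv hTe
  exact hD2 S hS e he _ hTe i.val i.isLt ⟨(hT i v e hv).2.1.symm, i.isLt, v, hv, rfl⟩

/-- `k + 1` pairwise compatible ones -/
theorem family (n : ℕ) (heven : ∀ v : V, Even (univ.filter (fun e : E => v ∈ ends e)).card)
    (hH : HighlyConnected ends ((2 * n + 1) * 6 ^ n)) (k : ℕ) (hk : k ≤ n + 1) :
    ∃ C : Fin k → Finset (Finset E), (∀ i, IsCircuitDecomposition ends (C i)) ∧
      ∀ i j, i ≠ j → Compatible ends (C i) (C j) := by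
  induction k with
  | zero => exact ⟨fun i => i.elim0, fun i => i.elim0, fun i => i.elim0⟩
  | succ k ih =>
    obtain ⟨C, hC1, hC2⟩ := ih (by omega)
    obtain ⟨D, hD1, hD2⟩ := mates ends s t hst hl n heven hH k (by omega) C hC1
    have hsym : ∀ C₁ C₂, Compatible ends C₁ C₂ → Compatible ends C₂ C₁ := by
      intro C₁ C₂ h v S₁ hS₁ S₂ hS₂
      rw [inter_comm]
      exact h v S₂ hS₂ S₁ hS₁
    refine ⟨Fin.snoc C D, ?_, ?_⟩
    · intro i
      refine Fin.lastCases ?_ (fun i => ?_) i
      · rw [Fin.snoc_last]; exact hD1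
      · rw [Fin.snoc_castSucc]; exact hC1 i
    · intro i j
      refine Fin.lastCases ?_ (fun i => ?_) i
      · refine Fin.lastCases ?_ (fun j => ?_) j
        · intro h; exact absurd rfl h
        · intro _
          rw [Fin.snoc_last, Fin.snoc_castSucc]
          exact hsym _ _ (hD2 j)
      · refine Fin.lastCases ?_ (fun j => ?_) j
        · intro _
          rw [Fin.snoc_last, Fin.snoc_castSucc]
          exact hD2 i
        · intro h
          rw [Fin.snoc_castSucc, Fin.snoc_castSucc]
          exact hC2 i j (fun h' => h (by rw [h']))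

end bridge

/-- Let `H` be a finite loopless multigraph with all degrees even in which every cut has at least
`2 (2n + 1) 6 ^ n` edges (or which has `(2n + 1) 6 ^ n` edge-disjoint connected spanning subgraphs). Then any `n`
circuit decompositions of `H` have a common compatible circuit decomposition; any `n` transition systems have a
common compatible circuit decomposition; and `H` has `n + 1` pairwise compatible circuit decompositions. -/
theorem result (n : ℕ) (V E : Type) [Fintype V] [DecidableEq V] [Fintype E] [DecidableEq E] (ends : E → Sym2 V)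
    (hloop : ∀ e, ¬ (ends e).IsDiag)
    (heven : ∀ v : V, Even (Finset.univ.filter (fun e : E => v ∈ ends e)).card)
    (hH : HighlyConnected ends ((2 * n + 1) * 6 ^ n)) :
    (∀ C : Fin n → Finset (Finset E), (∀ i, IsCircuitDecomposition ends (C i)) →
      ∃ D, IsCircuitDecomposition ends D ∧ ∀ i, Compatible ends (C i) D) ∧
    (∀ T : Fin n → V → E → E, (∀ i, IsTransition ends (T i)) →
      ∃ D, IsCircuitDecomposition ends D ∧ ∀ S ∈ D, ∀ i v, ∀ e ∈ S, v ∈ ends e → T i v e ∉ S) ∧
    ∃ C : Fin (n + 1) → Finset (Finset E), (∀ i, IsCircuitDecomposition ends (C i)) ∧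
      ∀ i j, i ≠ j → Compatible ends (C i) (C j) := by
  have hex : ∀ e, ∃ a b, ends e = s(a, b) := by
    intro e
    induction h : ends e with
    | _ a b => exact ⟨a, b, rfl⟩
  choose s t hst using hex
  have hl : ∀ e, s e ≠ t e := by
    intro e h
    apply hloop e
    rw [hst e, h]
    exact Sym2.mk_isDiag_iff.2 rfl
  exact ⟨fun C hC => mates ends s t hst hl n heven hH n le_rfl C hC,
    fun T hT => trans ends s t hst hl n heven hH T hT,
    family ends s t hst hl n heven hH (n + 1) le_rfl⟩

end Pool.Agent.Results.MP_6d4c99_co.HighlyConnected
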