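import Pool.Agent.Helper45.CCE.Multi

set_option autoImplicit false

namespace Pool.Agent.Results.MP_6d4c99_co.NoSimpleEdges

/-- A finite loopless multigraph with all degrees even in which every edge is parallel to another
edge has two partitions of its edges into cycles such that any cycle from the first and any from
the second share at most one edge at each vertex if and only if no cut consists of exactly two
edges. -/
theorem result :
    ∀ (V E : Type) [Fintype V] [DecidableEq V] [Fintype E] [DecidableEq E] (ends : E → Sym2 V),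
      (∀ e, ¬ (ends e).IsDiag) →
      (∀ v : V, Even (Finset.univ.filter (fun e : E => v ∈ ends e)).card) →
      (∀ e : E, ∃ f : E, f ≠ e ∧ ends f = ends e) →
      ((∃ C₁ C₂ : Finset (Finset E),
        (∀ S ∈ C₁, S.Nonempty ∧ (∀ v : V, Even (S.filter (fun e => v ∈ ends e)).card) ∧
            ∀ T ⊆ S, T.Nonempty → (∀ v : V, Even (T.filter (fun e => v ∈ ends e)).card) → T = S) ∧
        (∀ e : E, ∃! S, S ∈ C₁ ∧ e ∈ S) ∧
        (∀ S ∈ C₂, S.Nonempty ∧ (∀ v : V, Even (S.filter (fun e => v ∈ ends e)).card) ∧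
            ∀ T ⊆ S, T.Nonempty → (∀ v : V, Even (T.filter (fun e => v ∈ ends e)).card) → T = S) ∧
        (∀ e : E, ∃! S, S ∈ C₂ ∧ e ∈ S) ∧
        (∀ v : V, ∀ S₁ ∈ C₁, ∀ S₂ ∈ C₂,
            ((S₁ ∩ S₂).filter (fun e => v ∈ ends e)).card ≤ 1)) ↔
      ∀ (X : Finset V) (S : Finset E),
        (∀ e, e ∈ S ↔ ∃ u ∈ X, ∃ v, v ∉ X ∧ ends e = s(u, v)) → S.card ≠ 2) := by
  intro V E _ _ _ _ ends hloop hdeg hpar
  constructor
  · rintro ⟨C₁, C₂, h1, h2, h3, h4, h5⟩ X S hS hS2
    exact Pool.Agent.Helper45.CCE.multi_neg ends hloop hpar X S hS hS2 C₁ C₂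
      (fun S hS => (h1 S hS).2.1) h2 (fun S hS => (h3 S hS).2.1) h4 h5
  · intro hcut
    exact Pool.Agent.Helper45.CCE.multi_pos ends hloop hdeg hpar hcut

end Pool.Agent.Results.MP_6d4c99_co.NoSimpleEdges
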